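import Mathlib
import Pool.Agent.Y895.OL.A6
import Pool.Agent.Y895.PS.T5

set_option autoImplicit false

/-!
# The Lenstra-Pomerance-Wagstaff law for random numbers that share their leading binary digits
with the Mersenne numbers

The first `p - m p` binary digits of the numbers below are prescribed, the last `m p` digits are the
first `m p` binary digits of a real number `t` in `[0, 1)`: for sequences `A`, `m` of natural numbers
let `N A m t p = A p + ⌊2 ^ m p * t⌋` and let `W A m t p` be its `p`-rough part (the product, with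
multiplicity, of its prime factors larger than `p`).  For a set `S` let `M A m S t n` be the number
of primes `p ≤ n` in `S` with `W A m t p` prime, and let `V S n` be the sum of `log p / p` over the
primes `p ≤ n` in `S`.

We prove the following for all sequences with `m` eventually monotone and, for all large `p`,
`2 ^ (p - 1) ≤ A p` and `A p + 2 ^ m p ≤ 2 ^ p`.

* A positive proportion of prescribed digits: for every `ε` in `(0, 1)` there is `δ > 0` such that,
  if `m p ≥ (1 - δ) p` for large `p`, then for every set `S` and almost every `t` the number of prime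
  values is infinite if and only if `V S n → ∞`, and in this case it lies between
  `(1 - ε) (e ^ γ / log 2) V S n` and `(1 + ε) (e ^ γ / log 2) V S n` for large `n`, where
  `e ^ γ / log 2` is the constant of the conjecture.
* If `p - m p = o(p)`, then for every set `S` with `V S n → ∞` and almost every `t` the number of
  prime values is asymptotic to `(e ^ γ / log 2) V S n`.
* If `m p ≥ p - κ p / log p` for large `p`, where `κ` is a positive constant, then the law holds for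
  almost every `t` with a square root error term, for the set of all primes and for every set `S` of
  primes with `V S n → ∞`.

If `A p = 2 ^ p - 2 ^ m p`, then the first `p - m p` binary digits of `N A m t p` are all equal to
`1`: they are those of the Mersenne number `2 ^ p - 1`.
-/

namespace Pool.Agent.Results.MP_9b2bac_nt.LeadingOnes

open Filter Topology MeasureTheory Asymptotics

/-- The product, with multiplicity, of the prime factors of `m` that are larger than `p`. -/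
def roughPart (p m : ℕ) : ℕ := (m.primeFactorsList.filter (fun r => p < r)).prod

/-- Prescribed upper part `A p`, followed by the first `m p` binary digits of `t`. -/
noncomputable def N (A m : ℕ → ℕ) (t : ℝ) (p : ℕ) : ℕ := A p + ⌊2 ^ m p * t⌋₊

/-- The `p`-rough part of `N A m t p`. -/
noncomputable def W (A m : ℕ → ℕ) (t : ℝ) (p : ℕ) : ℕ := roughPart p (N A m t p)

open Classical in
/-- The number of primes `p ≤ n` in the set `S` for which `W A m t p` is prime. -/
noncomputable def M (A m : ℕ → ℕ) (S : Set ℕ) (t : ℝ) (n : ℕ) : ℕ :=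
  ((Finset.range (n + 1)).filter (fun p => p.Prime ∧ p ∈ S ∧ (W A m t p).Prime)).card

open Classical in
/-- The sum of `log p / p` over the primes `p ≤ n` in the set `S`. -/
noncomputable def V (S : Set ℕ) (n : ℕ) : ℝ :=
  ∑ p ∈ (Finset.range (n + 1)).filter (fun p => p.Prime ∧ p ∈ S), Real.log p / p

/-- The number of digits that are left free when the first `⌊κ p / log p⌋` digits are prescribed. -/
noncomputable def free (κ : ℝ) (p : ℕ) : ℕ := p - ⌊κ * p / Real.log p⌋₊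

/-- The number of digits that are left free when the first `⌊δ p⌋` digits are prescribed. -/
noncomputable def most (δ : ℝ) (p : ℕ) : ℕ := p - ⌊δ * p⌋₊

lemma V_eq (S : Set ℕ) (n : ℕ) : V S n = Pool.Agent.TH888.R.VS S n := by
  classical
  unfold V Pool.Agent.TH888.R.VS
  rw [Finset.sum_filter]
  refine Finset.sum_congr rfl fun p _ => ?_
  by_cases h : p.Prime ∧ p ∈ S
  · rw [if_pos h, if_pos ⟨h.2, h.1⟩]
    rfl
  · rw [if_neg h, if_neg fun h1 => h ⟨h1.2, h1.1⟩]

lemma M_eq (A m : ℕ → ℕ) (S : Set ℕ) (t : ℝ) (n : ℕ) :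
    M A m S t n = Pool.Agent.TH888.R.cS S (fun p => A p + ⌊((2 : ℕ) : ℝ) ^ m p * t⌋₊) n := by
  classical
  unfold M Pool.Agent.TH888.R.cS
  simp only [Nat.cast_ofNat]
  rfl

/-- the leading digits are those of the Mersenne number -/
lemma leading {a m p : ℕ} (hm : m ≤ p) (ha : a = 2 ^ p - 2 ^ m) {t : ℝ} (h0 : 0 ≤ t) (h1 : t < 1) :
    (a + ⌊2 ^ m * t⌋₊) / 2 ^ m = (2 ^ p - 1) / 2 ^ m := by
  have hpos : 0 < 2 ^ m := by positivity
  have hx : ⌊(2 : ℝ) ^ m * t⌋₊ < 2 ^ m := by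
    rw [Nat.floor_lt (by positivity)]
    push_cast
    have : (0 : ℝ) < 2 ^ m := by positivity
    nlinarith
  obtain ⟨k, rfl⟩ := Nat.exists_eq_add_of_le hm
  have e : 2 ^ (m + k) = 2 ^ m * 2 ^ k := pow_add 2 m k
  have hk : 1 ≤ 2 ^ k := Nat.one_le_two_pow
  obtain ⟨j, hj⟩ : ∃ j, 2 ^ k = j + 1 := ⟨2 ^ k - 1, by omega⟩
  have e2 : 2 ^ (m + k) = 2 ^ m * j + 2 ^ m := by rw [e, hj]; ring
  have h2 : a + ⌊(2 : ℝ) ^ m * t⌋₊ = 2 ^ m * j + ⌊(2 : ℝ) ^ m * t⌋₊ := by omega
  have h3 : 2 ^ (m + k) - 1 = 2 ^ m * j + (2 ^ m - 1) := by omega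
  rw [h2, h3, Nat.mul_add_div hpos, Nat.mul_add_div hpos, Nat.div_eq_of_lt hx,
    Nat.div_eq_of_lt (by omega)]

/-- With `A p = 2 ^ p - 2 ^ m p` the leading binary digits are those of the Mersenne number.  With a
small positive proportion of prescribed digits the dichotomy and the law with a constant close to
`e ^ γ / log 2` hold for almost every `t` and every set of primes, with `o(p)` prescribed digits the
law with this constant, and with `κ p / log p` prescribed digits the law with a square root error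
term; the sequences with `⌊δ p⌋` or `⌊κ p / log p⌋` leading digits `1` are admissible. -/
theorem result :
    (∀ (A m : ℕ → ℕ) (t : ℝ) (p : ℕ), A p = 2 ^ p - 2 ^ m p → m p ≤ p → 0 ≤ t → t < 1 →
      N A m t p / 2 ^ m p = (2 ^ p - 1) / 2 ^ m p) ∧
    (∀ ε : ℝ, 0 < ε → ε < 1 → ∃ δ : ℝ, 0 < δ ∧
      ((∀ᶠ p in atTop, most δ p ≤ most δ (p + 1)) ∧
        ∀ᶠ p : ℕ in atTop, 2 ^ (p - 1) ≤ 2 ^ p - 2 ^ most δ p ∧
          (2 ^ p - 2 ^ most δ p) + 2 ^ most δ p ≤ 2 ^ p ∧ (1 - δ) * p ≤ most δ p) ∧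
      ∀ A m : ℕ → ℕ, (∀ᶠ p in atTop, m p ≤ m (p + 1)) →
        (∀ᶠ p : ℕ in atTop, 2 ^ (p - 1) ≤ A p ∧ A p + 2 ^ m p ≤ 2 ^ p) →
        (∀ᶠ p : ℕ in atTop, (1 - δ) * p ≤ m p) →
          ∀ S : Set ℕ, ∀ᵐ t : ℝ, 0 ≤ t → t < 1 →
            ({p : ℕ | p.Prime ∧ p ∈ S ∧ (W A m t p).Prime}.Infinite ↔
              Tendsto (V S) atTop atTop) ∧
            (Tendsto (V S) atTop atTop → ∀ᶠ n : ℕ in atTop,
              (1 - ε) * (Real.exp Real.eulerMascheroniConstant / Real.log 2) * V S n ≤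
                M A m S t n ∧
              (M A m S t n : ℝ) ≤
                (1 + ε) * (Real.exp Real.eulerMascheroniConstant / Real.log 2) * V S n)) ∧
    (∀ A m : ℕ → ℕ, (∀ᶠ p in atTop, m p ≤ m (p + 1)) →
      (∀ᶠ p : ℕ in atTop, 2 ^ (p - 1) ≤ A p ∧ A p + 2 ^ m p ≤ 2 ^ p) →
      (∀ δ : ℝ, 0 < δ → ∀ᶠ p : ℕ in atTop, (1 - δ) * p ≤ m p) →
        ∀ S : Set ℕ, Tendsto (V S) atTop atTop → ∀ᵐ t : ℝ, 0 ≤ t → t < 1 →
          Tendsto (fun n : ℕ => (M A m S t n : ℝ) / V S n) atTop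
            (𝓝 (Real.exp Real.eulerMascheroniConstant / Real.log 2))) ∧
    ∃ κ : ℝ, 0 < κ ∧
      ((∀ᶠ p in atTop, free κ p ≤ free κ (p + 1)) ∧
        ∀ᶠ p : ℕ in atTop, 2 ^ (p - 1) ≤ 2 ^ p - 2 ^ free κ p ∧
          (2 ^ p - 2 ^ free κ p) + 2 ^ free κ p ≤ 2 ^ p ∧
          (p : ℝ) - κ * p / Real.log p ≤ free κ p) ∧
      ∀ A m : ℕ → ℕ, (∀ᶠ p in atTop, m p ≤ m (p + 1)) →
        (∀ᶠ p : ℕ in atTop, 2 ^ (p - 1) ≤ A p ∧ A p + 2 ^ m p ≤ 2 ^ p) →
        (∀ᶠ p : ℕ in atTop, (p : ℝ) - κ * p / Real.log p ≤ m p) →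
          (∀ᵐ t : ℝ, 0 ≤ t → t < 1 →
            (fun n : ℕ => (M A m Set.univ t n : ℝ) -
              Real.exp Real.eulerMascheroniConstant / Real.log 2 * Real.log n) =O[atTop]
            (fun n : ℕ => Real.sqrt (Real.log n) * (Real.log (Real.log n)) ^ ((5 : ℝ) / 2))) ∧
          (∀ S : Set ℕ, Tendsto (V S) atTop atTop → ∀ᵐ t : ℝ, 0 ≤ t → t < 1 →
            (fun n : ℕ => (M A m S t n : ℝ) -
              Real.exp Real.eulerMascheroniConstant / Real.log 2 * V S n) =O[atTop]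
            (fun n : ℕ => Real.sqrt (V S n * Real.log (Real.log n)) *
              (Real.log (V S n * Real.log (Real.log n))) ^ 2)) := by
  have hV : ∀ S, V S = Pool.Agent.TH888.R.VS S := fun S => funext fun n => V_eq S n
  have hpow : ∀ p f : ℕ, 1 ≤ p → f ≤ p - 1 → 2 ^ (p - 1) ≤ 2 ^ p - 2 ^ f ∧
      (2 ^ p - 2 ^ f) + 2 ^ f ≤ 2 ^ p := by
    intro p f h1 h2
    have h4 : 2 ^ f ≤ 2 ^ (p - 1) := Nat.pow_le_pow_right (by norm_num) h2
    have h5 : 2 ^ p = 2 * 2 ^ (p - 1) := by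
      rw [← pow_succ']
      congr 1
      omega
    omega
  have hA' : ∀ A m : ℕ → ℕ, (∀ᶠ p : ℕ in atTop, 2 ^ (p - 1) ≤ A p ∧ A p + 2 ^ m p ≤ 2 ^ p) →
      ∀ᶠ p : ℕ in atTop, 1 / 2 * ((2 : ℕ) : ℝ) ^ p ≤ A p ∧
        (A p : ℝ) ≤ 1 * ((2 : ℕ) : ℝ) ^ p ∧ 2 ^ m p ≤ A p := by
    intro A m hA
    filter_upwards [hA, eventually_ge_atTop 1] with p hp hp1
    obtain ⟨a1, a2⟩ := hp
    have h5 : 2 ^ p = 2 * 2 ^ (p - 1) := by
      rw [← pow_succ']
      congr 1
      omega
    have h6 : (2 : ℝ) ^ p = 2 * 2 ^ (p - 1) := by exact_mod_cast h5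
    have a1' : (2 : ℝ) ^ (p - 1) ≤ A p := by exact_mod_cast a1
    have a2' : (A p : ℝ) + 2 ^ m p ≤ 2 ^ p := by exact_mod_cast a2
    have h7 : (0 : ℝ) < 2 ^ m p := by positivity
    push_cast
    exact ⟨by linarith, by linarith, by omega⟩
  have hasy : ∀ ε : ℝ, 0 < ε → ε < 1 → ∃ δ : ℝ, 0 < δ ∧ δ < 1 ∧
      ∀ A m : ℕ → ℕ, (∀ᶠ p in atTop, m p ≤ m (p + 1)) →
        (∀ᶠ p : ℕ in atTop, 2 ^ (p - 1) ≤ A p ∧ A p + 2 ^ m p ≤ 2 ^ p) →
        (∀ᶠ p : ℕ in atTop, (1 - δ) * p ≤ m p) →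
          ∀ S : Set ℕ, ∀ᵐ t : ℝ, 0 ≤ t → t < 1 →
            ({p : ℕ | p.Prime ∧ p ∈ S ∧ (W A m t p).Prime}.Infinite ↔
              Tendsto (V S) atTop atTop) ∧
            (Tendsto (V S) atTop atTop → ∀ᶠ n : ℕ in atTop,
              (1 - ε) * (Real.exp Real.eulerMascheroniConstant / Real.log 2) * V S n ≤
                M A m S t n ∧
              (M A m S t n : ℝ) ≤
                (1 + ε) * (Real.exp Real.eulerMascheroniConstant / Real.log 2) * V S n) := by
    intro ε hε hε1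
    obtain ⟨δ, hδ, hδ1, hord⟩ := Pool.Agent.Y895.PT.asy_pm ε hε hε1
    refine ⟨δ, hδ, hδ1, fun A m hm hA hm1 S => ?_⟩
    have h1 := hord 2 le_rfl (1 / 2) 1 (by norm_num) one_pos A m hm (by
      filter_upwards [hA' A m hA, hm1] with p hp h1
      exact ⟨hp.1, hp.2.1, hp.2.2, h1⟩) S
    filter_upwards [h1] with t ht h0 h1
    have h2 := ht h0 h1
    rw [hV]
    simp only [M_eq]
    refine ⟨?_, ?_⟩
    · have h3 := h2.inf
      simp only [Nat.cast_ofNat] at h3
      exact h3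
    · have h3 := h2.law
      simp only [Nat.cast_ofNat] at h3 ⊢
      exact h3
  refine ⟨fun A m t p hA hm h0 h1 => leading hm hA h0 h1, fun ε hε hε1 => ?_,
    fun A m hm hA hk S hS => ?_, ?_⟩
  · obtain ⟨δ, hδ, hδ1, h⟩ := hasy ε hε hε1
    obtain ⟨hd2, -⟩ := Pool.Agent.Y895.OL.dfree_spec hδ hδ1
    refine ⟨δ, hδ, ⟨Eventually.of_forall fun p => Pool.Agent.Y895.OL.dfree_mono hδ hδ1 p, ?_⟩, h⟩
    filter_upwards [hd2] with p hp
    obtain ⟨h1, h2, h3⟩ := hp
    exact ⟨(hpow p _ h1 h2).1, (hpow p _ h1 h2).2, h3⟩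
  · have h1 : ∀ k : ℕ, ∀ᵐ t : ℝ, 0 ≤ t → t < 1 → ∀ᶠ n : ℕ in atTop,
        (1 - 1 / ((k : ℝ) + 2)) * (Real.exp Real.eulerMascheroniConstant / Real.log 2) * V S n ≤
          M A m S t n ∧
        (M A m S t n : ℝ) ≤
          (1 + 1 / ((k : ℝ) + 2)) * (Real.exp Real.eulerMascheroniConstant / Real.log 2) *
            V S n := by
      intro k
      obtain ⟨δ, hδ, hδ1, h⟩ := hasy (1 / ((k : ℝ) + 2)) (by positivity) (by
        rw [div_lt_one (by positivity)]
        have : (0 : ℝ) ≤ k := Nat.cast_nonneg k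
        linarith)
      filter_upwards [h A m hm hA (hk δ hδ) S] with t ht h0 h1
      exact (ht h0 h1).2 hS
    filter_upwards [ae_all_iff.2 h1] with t ht h0 h1
    exact Pool.Agent.Y895.PT.lim_of_close2 (by
      have : (0 : ℝ) < Real.log 2 := Real.log_pos (by norm_num)
      positivity) hS fun k => ht k h0 h1
  · obtain ⟨κ, hκ, h⟩ := Pool.Agent.Y895.PM.pt_pm (b := 2) le_rfl
    obtain ⟨hf1, hf2⟩ := Pool.Agent.Y895.PM.mfree_spec hκ
    refine ⟨κ, hκ, ⟨hf1, ?_⟩, fun A m hm hA hm1 => ?_⟩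
    · filter_upwards [hf2] with p hp
      obtain ⟨h1, h2, h3⟩ := hp
      exact ⟨(hpow p _ h1 h2).1, (hpow p _ h1 h2).2, h3⟩
    · have hpt : ∀ S : Set ℕ, ∀ᵐ t : ℝ, 0 ≤ t → t < 1 → Pool.Agent.TH888.R.Pt
          (fun p => A p + ⌊((2 : ℕ) : ℝ) ^ m p * t⌋₊)
          (Real.exp Real.eulerMascheroniConstant / Real.log 2) S := by
        intro S
        have h1 := h (1 / 2) 1 (by norm_num) one_pos A m hm (by
          filter_upwards [hA' A m hA, hm1] with p hp h1
          exact ⟨hp.1, hp.2.1, hp.2.2, h1⟩) S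
        simp only [Nat.cast_ofNat] at h1 ⊢
        exact h1
      refine ⟨?_, fun S hS => ?_⟩
      · filter_upwards [hpt Set.univ] with t ht h0 h1
        obtain ⟨B, hB, h⟩ := (ht h0 h1).law Pool.Agent.TH888.R.VS_univ_tendsto
        simp only [M_eq]
        exact Pool.Agent.TH888.R.bigO_all hB h
      · rw [hV] at hS ⊢
        filter_upwards [hpt S] with t ht h0 h1
        obtain ⟨B, hB, h⟩ := (ht h0 h1).law hS
        simp only [M_eq]
        exact Pool.Agent.TH888.R.bigO_set hB hS h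

end Pool.Agent.Results.MP_9b2bac_nt.LeadingOnes
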