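import Mathlib
import Pool.Agent.Y122.PC.Fin

set_option autoImplicit false

/-!
# The exponents have the pair correlation of a Poisson process, in the mean over base and amplitude

For real `x > 0`, `y` and a prime `p` let `W x y p` be the `p`-rough part (the product, with
multiplicity, of the prime factors larger than `p`) of the largest integer below
`exp (p x + y) = β α ^ p`, where `α = exp x` is the base and `β = exp y` the amplitude.  At
`(x, y) = (log 2, 0)` it is the Mersenne number `2 ^ p - 1`.  The exponents are the primes `p` with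
`W x y p` prime.  Their expected number in `(a z, b z]` is `(e ^ γ / x) log (b / a)` for large `z`.

We prove that for the mean over every box of `(x, y)` the number of the exponents in `(a z, b z]` and
the number of the pairs `p ≠ q` of exponents with `a z < p ≤ b z`, `c z < q ≤ d z` have, as `z → ∞`, the
limits of a Poisson process of intensity `e ^ γ / x` on the logarithmic scale: the means of
`(e ^ γ / x) log (b / a)` and of `(e ^ γ / x) ^ 2 log (b / a) log (d / c)`.  For `a = c`, `b = d` this is
the second factorial moment of the number of exponents in a window, so the number variance is that of a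
Poisson variable.

Proof.  A shift of `(x, y)` moves the arguments `p x + y` and `q x + y` independently of each other, so
the mean of the product of the two indicators over a box lies between means of the product of two
window means, over a slightly smaller and a slightly larger box.  The window means are known
(`Pool.Agent.H447R2.ML.window_asymp_l`, starting library).  For close levels the same argument with
windows of length `|q - p| / (p + q)` gives an upper bound of the right order.
-/

namespace Pool.Agent.Results.MP_9b2bac_nt.PairCorrelation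

open Filter Topology MeasureTheory

/-- The product, with multiplicity, of the prime factors of `m` that are larger than `p`. -/
def roughPart (p m : ℕ) : ℕ := (m.primeFactorsList.filter (fun r => p < r)).prod

/-- The `p`-rough part of the largest integer below `exp (p x + y)`. -/
noncomputable def W (x y : ℝ) (p : ℕ) : ℕ := roughPart p (⌈Real.exp (p * x + y)⌉₊ - 1)

/-- The set of the exponents in the interval `(u, v]`: the primes `p` in this interval for which
`W x y p` is prime. -/
noncomputable def E (x y u v : ℝ) : Finset ℕ :=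
  (Finset.Ioc ⌊u⌋₊ ⌊v⌋₊).filter (fun p => p.Prime ∧ (W x y p).Prime)

lemma W_mersenne {p : ℕ} (hp : p.Prime) : W (Real.log 2) 0 p = 2 ^ p - 1 := by
  have e1 : Real.exp (p * Real.log 2 + 0) = ((2 ^ p : ℕ) : ℝ) := by
    rw [add_zero, mul_comm, Real.exp_mul, Real.exp_log two_pos, Real.rpow_natCast]
    push_cast
    rfl
  unfold W
  rw [e1, Nat.ceil_natCast]
  unfold roughPart
  rw [List.filter_eq_self.2, Nat.prod_primeFactorsList]
  · have h := hp.two_le
    have : 2 ^ 2 ≤ 2 ^ p := Nat.pow_le_pow_right (by norm_num) h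
    omega
  · intro r hr
    obtain ⟨hr1, hr2⟩ := Nat.mem_primeFactorsList'.1 hr
    -- the order of `2` modulo `r` is `p`
    have hr2' := hr2.1
    have : Fact r.Prime := ⟨hr1⟩
    have : Fact p.Prime := ⟨hp⟩
    have h1 : (2 : ZMod r) ^ p = 1 := by
      have h3 : ((2 ^ p - 1 : ℕ) : ZMod r) = 0 := (ZMod.natCast_eq_zero_iff _ _).2 hr2'
      rw [Nat.cast_sub Nat.one_le_two_pow] at h3
      push_cast at h3
      exact sub_eq_zero.1 h3
    have h2 : (2 : ZMod r) ≠ 1 := by
      intro h
      have : (1 : ZMod r) = 0 := by linear_combination h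
      exact one_ne_zero this
    have h4 : orderOf (2 : ZMod r) = p := orderOf_eq_prime h1 h2
    have h5 : (2 : ZMod r) ≠ 0 := by
      intro h
      rw [h, zero_pow hp.ne_zero] at h1
      exact zero_ne_one h1
    have h6 : orderOf (2 : ZMod r) ∣ r - 1 := orderOf_dvd_of_pow_eq_one (ZMod.pow_card_sub_one_eq_one h5)
    rw [h4] at h6
    have h7 : p ≤ r - 1 := Nat.le_of_dvd (by have := hr1.two_le; omega) h6
    have := hr1.two_le
    simp only [decide_eq_true_eq]
    omega

lemma E_card (x y u v : ℝ) : E x y u v =
    (Pool.Agent.Y122.PC.Pr u v).filter (fun p => (Pool.Agent.Y122.PC.W x y p).Prime) := by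
  unfold E Pool.Agent.Y122.PC.Pr
  rw [Finset.filter_filter]
  rfl

/-- At `(log 2, 0)` the numbers are the Mersenne numbers; the mean number of exponents in `(a z, b z]`;
the mean number of pairs of different exponents `p` in `(a z, b z]` and `q` in `(c z, d z]`. -/
theorem result :
    (∀ p : ℕ, p.Prime → W (Real.log 2) 0 p = 2 ^ p - 1) ∧
    (∀ x₀ x₁ y₀ y₁ a b : ℝ, 0 < x₀ → x₀ < x₁ → y₀ < y₁ → 0 < a → a < b →
      Tendsto (fun z : ℝ => ∫ x in x₀..x₁, ∫ y in y₀..y₁, ((E x y (a * z) (b * z)).card : ℝ)) atTop
        (𝓝 (∫ x in x₀..x₁, ∫ _y in y₀..y₁,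
          Real.exp Real.eulerMascheroniConstant / x * Real.log (b / a)))) ∧
    (∀ x₀ x₁ y₀ y₁ a b c d : ℝ, 0 < x₀ → x₀ < x₁ → y₀ < y₁ → 0 < a → a < b → 0 < c → c < d →
      Tendsto (fun z : ℝ => ∫ x in x₀..x₁, ∫ y in y₀..y₁,
        (((E x y (a * z) (b * z) ×ˢ E x y (c * z) (d * z)).filter (fun r => r.1 ≠ r.2)).card : ℝ)) atTop
        (𝓝 (∫ x in x₀..x₁, ∫ _y in y₀..y₁,
          (Real.exp Real.eulerMascheroniConstant / x * Real.log (b / a)) *
          (Real.exp Real.eulerMascheroniConstant / x * Real.log (d / c))))) := by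
  have hT : ∀ x₀ x₁ y₀ y₁ A B : ℝ, 0 < x₀ → x₀ < x₁ → y₀ < y₁ →
      Pool.Agent.Y122.PC.T x₀ x₁ y₀ y₁ * (A * B) = ∫ x in x₀..x₁, ∫ _y in y₀..y₁,
          (Real.exp Real.eulerMascheroniConstant / x * A) *
          (Real.exp Real.eulerMascheroniConstant / x * B) := by
    intro x₀ x₁ y₀ y₁ A B hx0 hx hy
    have h := Pool.Agent.Y122.PC.int_T hx0 hx.le hy.le
    have h1 := setIntegral_prod_mul (μ := (volume : Measure ℝ)) (ν := (volume : Measure ℝ))
      (fun x : ℝ => (Pool.Agent.Y122.PC.eg / x) * (Pool.Agent.Y122.PC.eg / x)) (fun _ => (1 : ℝ))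
      (Set.Ioc x₀ x₁) (Set.Ioc y₀ y₁)
    simp only [mul_one] at h1
    rw [← h]
    unfold Pool.Agent.Y122.PC.Bx
    rw [Measure.volume_eq_prod, h1]
    have h2 : ∫ _y in Set.Ioc y₀ y₁, (1 : ℝ) = y₁ - y₀ := by
      simp [Measure.real, hy.le]
    rw [h2, ← intervalIntegral.integral_of_le hx.le]
    simp only [intervalIntegral.integral_const, smul_eq_mul]
    have h3 : ∫ x in x₀..x₁, (y₁ - y₀) * ((Real.exp Real.eulerMascheroniConstant / x * A) *
          (Real.exp Real.eulerMascheroniConstant / x * B)) =
        ∫ x in x₀..x₁, (Pool.Agent.Y122.PC.eg / x * (Pool.Agent.Y122.PC.eg / x)) *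
          ((y₁ - y₀) * (A * B)) :=
      intervalIntegral.integral_congr fun x _ => by
        simp only [Pool.Agent.Y122.PC.eg]
        ring
    rw [h3, intervalIntegral.integral_mul_const]
    ring
  have hpairs : ∀ x₀ x₁ y₀ y₁ a b c d : ℝ, 0 < x₀ → x₀ < x₁ → y₀ < y₁ → 0 < a → a < b → 0 < c → c < d →
      Tendsto (fun z : ℝ => ∫ x in x₀..x₁, ∫ y in y₀..y₁,
        (((E x y (a * z) (b * z) ×ˢ E x y (c * z) (d * z)).filter (fun r => r.1 ≠ r.2)).card : ℝ)) atTop
        (𝓝 (∫ x in x₀..x₁, ∫ _y in y₀..y₁,
          (Real.exp Real.eulerMascheroniConstant / x * Real.log (b / a)) *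
          (Real.exp Real.eulerMascheroniConstant / x * Real.log (d / c)))) := by
    intro x₀ x₁ y₀ y₁ a b c d hx0 hx hy ha hab hc hcd
    have h := Pool.Agent.Y122.PC.second hx0 hx hy ha hab hc hcd
    rw [hT _ _ _ _ _ _ hx0 hx hy] at h
    refine h.congr fun z => ?_
    refine intervalIntegral.integral_congr fun x _ => intervalIntegral.integral_congr fun y _ => ?_
    simp only [Nat.cast_inj, E_card]
    congr 1
    ext r
    simp only [Finset.mem_filter, Finset.mem_product]
    tauto
  refine ⟨fun p hp => W_mersenne hp, ?_, hpairs⟩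
  · intro x₀ x₁ y₀ y₁ a b hx0 hx hy ha hab
    have h := Pool.Agent.Y122.PC.first hx0 hx hy ha hab
    have e : (∫ x in x₀..x₁, ∫ _y in y₀..y₁,
          Real.exp Real.eulerMascheroniConstant / x * Real.log (b / a)) =
        Pool.Agent.Y122.PC.eg * Real.log (x₁ / x₀) * (y₁ - y₀) * Real.log (b / a) := by
      simp only [intervalIntegral.integral_const, smul_eq_mul]
      have e2 : ∫ x in x₀..x₁, (y₁ - y₀) * (Real.exp Real.eulerMascheroniConstant / x * Real.log (b / a)) =
          ∫ x in x₀..x₁, ((y₁ - y₀) * Real.exp Real.eulerMascheroniConstant * Real.log (b / a)) * x⁻¹ :=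
        intervalIntegral.integral_congr fun x _ => by ring
      rw [e2, intervalIntegral.integral_const_mul, integral_inv_of_pos hx0 (hx0.trans hx)]
      unfold Pool.Agent.Y122.PC.eg
      ring
    rw [e]
    refine h.congr fun z => ?_
    refine intervalIntegral.integral_congr fun x _ => intervalIntegral.integral_congr fun y _ => ?_
    simp only [E_card]

end Pool.Agent.Results.MP_9b2bac_nt.PairCorrelation
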