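import Mathlib
import Pool.Agent.Y719.Mer.Open
import Pool.Agent.H447R2.ML.Spec

set_option autoImplicit false

/-!
# The Lenstra-Pomerance-Wagstaff law along curves of pairs, and for Lucas sequences

For a real sequence `s` let `W s p` be the `p`-rough part (the product, with multiplicity, of the
prime factors larger than `p`) of `⌊s p⌋`.  For the sequences `A x ^ p - B c ^ p` with
`A = B = c = 1` and `x = 2`, and for the Lucas sequence `U_p (3, 2)`, the number `W s p` is the
Mersenne number `2 ^ p - 1`.  A sequence obeys the law with constant `κ` for a set `S` if the number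
of primes `p ≤ n` with `W s p` prime is `κ log n + O((log n) ^ (1/2) (log log n) ^ (5/2))`, if the
same holds for the primes in `S` with `V S n` (the sum of `log p / p` over the primes `p ≤ n` in
`S`) in the place of `log n` and the error term `O((V L) ^ (1/2) (log (V L)) ^ 2)`, `L = log log n`,
in case `V S` is unbounded, and if there are infinitely many `p` in `S` with `W s p` prime if and
only if `V S` is unbounded.

We prove the law for `A x * x ^ p - B x * c x ^ p` for almost every `x` in `U`, for every open set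
`U` of reals larger than `1` and all `C ^ 2` functions `A > 0`, `B`, `c` on `U` with `|c x| < x`, and
for the Lucas sequences `U_p (P, Q)` for every real `Q` and almost every real `P`.
-/

namespace Pool.Agent.Results.MP_9b2bac_nt.PairCurves

open Filter Topology MeasureTheory Asymptotics

/-- The product, with multiplicity, of the prime factors of `m` that are larger than `p`. -/
def roughPart (p m : ℕ) : ℕ := (m.primeFactorsList.filter (fun r => p < r)).prod

/-- The `p`-rough part of the integer part of the term `s p` of a real sequence. -/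
noncomputable def W (s : ℕ → ℝ) (p : ℕ) : ℕ := roughPart p ⌊s p⌋₊

open Classical in
/-- The number of primes `p ≤ n` in the set `S` for which `W s p` is prime. -/
noncomputable def M (s : ℕ → ℝ) (S : Set ℕ) (n : ℕ) : ℕ :=
  ((Finset.range (n + 1)).filter (fun p => p.Prime ∧ p ∈ S ∧ (W s p).Prime)).card

open Classical in
/-- The sum of `log p / p` over the primes `p ≤ n` in the set `S`. -/
noncomputable def V (S : Set ℕ) (n : ℕ) : ℝ :=
  ∑ p ∈ (Finset.range (n + 1)).filter (fun p => p.Prime ∧ p ∈ S), Real.log p / p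

/-- The law with constant `κ`, with error term, for all primes and for the primes in `S`. -/
structure Law (s : ℕ → ℝ) (κ : ℝ) (S : Set ℕ) : Prop where
  /-- the number of all primes `p ≤ n` with `W s p` prime -/
  all : (fun n : ℕ => (M s Set.univ n : ℝ) - κ * Real.log n) =O[atTop]
    (fun n : ℕ => Real.sqrt (Real.log n) * (Real.log (Real.log n)) ^ ((5 : ℝ) / 2))
  /-- the number of primes `p ≤ n` in `S` with `W s p` prime -/
  sets : Tendsto (V S) atTop atTop → (fun n : ℕ => (M s S n : ℝ) - κ * V S n) =O[atTop]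
    (fun n : ℕ => Real.sqrt (V S n * Real.log (Real.log n)) *
      (Real.log (V S n * Real.log (Real.log n))) ^ 2)
  /-- there are infinitely many in `S` if and only if the weight of `S` is infinite -/
  dichotomy : {p : ℕ | p.Prime ∧ p ∈ S ∧ (W s p).Prime}.Infinite ↔ Tendsto (V S) atTop atTop

/-- The Lucas sequence `U_n (P, Q)`. -/
def lucasU (P Q : ℝ) : ℕ → ℝ
  | 0 => 0
  | 1 => 1
  | n + 2 => P * lucasU P Q (n + 1) - Q * lucasU P Q n

lemma V_eq (S : Set ℕ) : V S = Pool.Agent.TH888.R.VS S := by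
  classical
  funext n
  unfold V Pool.Agent.TH888.R.VS
  rw [Finset.sum_filter]
  refine Finset.sum_congr rfl fun p _ => ?_
  by_cases h : p.Prime ∧ p ∈ S
  · rw [if_pos h, if_pos ⟨h.2, h.1⟩]
    rfl
  · rw [if_neg h, if_neg fun h1 => h ⟨h1.2, h1.1⟩]

lemma M_eq (s : ℕ → ℝ) (S : Set ℕ) (n : ℕ) :
    M s S n = Pool.Agent.TH888.R.cS S (fun p => ⌊s p⌋₊) n := by
  classical
  unfold M Pool.Agent.TH888.R.cS
  rfl

/-- If `s p = 2 ^ p - 1` then `W s p` is the Mersenne number. -/
lemma W_mersenne {s : ℕ → ℝ} {p : ℕ} (hp : p.Prime) (hs : s p = 2 ^ p - 1) :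
    W s p = 2 ^ p - 1 := by
  have hpd : ¬ (p : ℤ) ∣ (2 : ℤ) - 1 := by
    intro h
    have h1 : (p : ℤ) ∣ 1 := by simpa using h
    have h2 : p ∣ 1 := by exact_mod_cast h1
    exact hp.one_lt.ne' (Nat.dvd_one.1 h2)
  have h := Pool.Agent.H447R2.ML.rough_quot (a := 2) (b := 1) (by norm_num) (by norm_num)
    (by norm_num) hp hpd (x := s p) (by rw [hs]; norm_num)
  have hgeom : (∑ i ∈ Finset.range p, (2 : ℤ) ^ i * 1 ^ (p - 1 - i)) * (2 - 1) =
      (2 : ℤ) ^ p - 1 ^ p := (Commute.all (2 : ℤ) 1).geom_sum₂_mul p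
  have h4 : W s p = Pool.Agent.H305R2.roughPart p ⌊s p⌋₊ := rfl
  rw [← h4] at h
  have h5 : W s p + 1 = 2 ^ p := by
    have : ((W s p + 1 : ℕ) : ℤ) = ((2 ^ p : ℕ) : ℤ) := by
      push_cast
      norm_num at h hgeom ⊢
      linarith
    exact_mod_cast this
  omega

lemma lucas_mersenne (n : ℕ) : lucasU 3 2 n = 2 ^ n - 1 := by
  induction n using Nat.twoStepInduction with
  | zero => simp [lucasU]
  | one => norm_num [lucasU]
  | more n h1 h2 =>
    rw [lucasU, h1, h2]
    ring

lemma lucas_closed (α β : ℝ) (n : ℕ) :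
    lucasU (α + β) (α * β) n * (α - β) = α ^ n - β ^ n := by
  induction n using Nat.twoStepInduction with
  | zero => simp [lucasU]
  | one => simp [lucasU]
  | more n h1 h2 =>
    rw [lucasU]
    calc ((α + β) * lucasU (α + β) (α * β) (n + 1) - α * β * lucasU (α + β) (α * β) n) * (α - β)
        = (α + β) * (lucasU (α + β) (α * β) (n + 1) * (α - β)) -
            α * β * (lucasU (α + β) (α * β) n * (α - β)) := by ring
      _ = _ := by rw [h1, h2]; ring

/-- the law from the library statement -/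
lemma law_of {s : ℕ → ℝ} {κ : ℝ} {S : Set ℕ}
    (h1 : Pool.Agent.TH888.R.Pt (fun p => ⌊s p⌋₊) κ Set.univ)
    (h2 : Pool.Agent.TH888.R.Pt (fun p => ⌊s p⌋₊) κ S) : Law s κ S := by
  refine ⟨?_, fun hS => ?_, ?_⟩
  · obtain ⟨B, hB, h⟩ := h1.law Pool.Agent.TH888.R.VS_univ_tendsto
    simp only [M_eq]
    exact Pool.Agent.TH888.R.bigO_all hB h
  · rw [V_eq] at hS ⊢
    obtain ⟨B, hB, h⟩ := h2.law hS
    simp only [M_eq]
    exact Pool.Agent.TH888.R.bigO_set hB hS h
  · rw [V_eq]
    constructor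
    · intro hi
      by_contra hn
      exact hi (h2.fin hn)
    · exact h2.inf

lemma law_open {U : Set ℝ} (hU : IsOpen U) (hU1 : ∀ x ∈ U, 1 < x) {A B c : ℝ → ℝ}
    (hA : ContDiffOn ℝ 2 A U) (hB : ContDiffOn ℝ 2 B U) (hc : ContDiffOn ℝ 2 c U)
    (hpos : ∀ x ∈ U, 0 < A x) (hcx : ∀ x ∈ U, |c x| < x) (S : Set ℕ) :
    ∀ᵐ x : ℝ, x ∈ U → Law (fun p => A x * x ^ p - B x * c x ^ p)
      (Real.exp Real.eulerMascheroniConstant / Real.log x) S := by
  filter_upwards [Pool.Agent.Y719.Mer.pt_open hU hU1 hA hB hc hpos hcx Set.univ,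
    Pool.Agent.Y719.Mer.pt_open hU hU1 hA hB hc hpos hcx S] with x h1 h2 hx
  exact law_of (h1 hx) (h2 hx)

lemma law_lucas (Q : ℝ) (S : Set ℕ) :
    ∀ᵐ P : ℝ, ∀ α : ℝ, max 1 (Real.sqrt |Q|) < α → α + Q / α = P →
      Law (lucasU P Q) (Real.exp Real.eulerMascheroniConstant / Real.log α) S := by
  set U : Set ℝ := Set.Ioi (max 1 (Real.sqrt |Q|)) with hUd
  have hU1 : ∀ x ∈ U, 1 < x := fun x hx => (le_max_left _ _).trans_lt hx
  have hU2 : ∀ x ∈ U, |Q| < x ^ 2 := fun x hx =>
    (Real.sqrt_lt' (by linarith [hU1 x hx])).1 ((le_max_right _ _).trans_lt hx)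
  have hU3 : ∀ x ∈ U, |Q / x| < x := fun x hx => by
    have h1 : 0 < x := by linarith [hU1 x hx]
    rw [abs_div, abs_of_pos h1, div_lt_iff₀ h1, ← sq]
    exact hU2 x hx
  have hU4 : ∀ x ∈ U, 0 < x - Q / x := fun x hx => by
    have := (abs_lt.1 (hU3 x hx)).2
    linarith
  have hne : ∀ x ∈ U, x ≠ 0 := fun x hx => by
    have h1 : 0 < x := by linarith [hU1 x hx]
    exact h1.ne'
  have hc : ContDiffOn ℝ 2 (fun x : ℝ => Q / x) U := contDiffOn_const.div contDiffOn_id hne
  have hA : ContDiffOn ℝ 2 (fun x : ℝ => 1 / (x - Q / x)) U :=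
    contDiffOn_const.div (contDiffOn_id.sub hc) fun x hx => (hU4 x hx).ne'
  have h := law_open isOpen_Ioi hU1 hA hA hc (fun x hx => one_div_pos.2 (hU4 x hx)) hU3 S
  have hd : DifferentiableOn ℝ (fun x : ℝ => x + Q / x) U :=
    (contDiffOn_id.add hc).differentiableOn (by norm_num)
  filter_upwards [Pool.Agent.Y719.Mer.ae_image hd h] with P hP α hα hαP
  have h2 := hP α hα hαP
  have e : (fun p : ℕ => 1 / (α - Q / α) * α ^ p - 1 / (α - Q / α) * (Q / α) ^ p) = lucasU P Q := by
    funext n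
    have h3 := lucas_closed α (Q / α) n
    have e1 : α * (Q / α) = Q := by field_simp [hne α hα]
    rw [e1, hαP] at h3
    rw [← mul_sub, ← h3, mul_comm (lucasU P Q n), ← mul_assoc,
      one_div_mul_cancel (hU4 α hα).ne', one_mul]
  rw [e] at h2
  exact h2

/-- The law of Lenstra, Pomerance and Wagstaff, with a square root error term and for all sets of
primes, along every `C ^ 2` curve of pairs and for the Lucas sequences of every discriminant. -/
theorem result :
    (∀ (A B c : ℝ → ℝ), A 2 = 1 → B 2 = 1 → c 2 = 1 → ∀ p : ℕ, p.Prime →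
      W (fun q => A 2 * 2 ^ q - B 2 * c 2 ^ q) p = 2 ^ p - 1) ∧
    (∀ U : Set ℝ, IsOpen U → (∀ x ∈ U, 1 < x) → ∀ A B c : ℝ → ℝ,
      ContDiffOn ℝ 2 A U → ContDiffOn ℝ 2 B U → ContDiffOn ℝ 2 c U →
      (∀ x ∈ U, 0 < A x) → (∀ x ∈ U, |c x| < x) → ∀ S : Set ℕ,
      ∀ᵐ x : ℝ, x ∈ U → Law (fun p => A x * x ^ p - B x * c x ^ p)
        (Real.exp Real.eulerMascheroniConstant / Real.log x) S) ∧
    (∀ p : ℕ, p.Prime → W (lucasU 3 2) p = 2 ^ p - 1) ∧
    (∀ (Q : ℝ) (S : Set ℕ), ∀ᵐ P : ℝ, ∀ α : ℝ, max 1 (Real.sqrt |Q|) < α → α + Q / α = P →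
      Law (lucasU P Q) (Real.exp Real.eulerMascheroniConstant / Real.log α) S) := by
  refine ⟨fun A B c hA hB hc p hp => W_mersenne hp ?_, fun U hU hU1 A B c hA hB hc hpos hcx S =>
    law_open hU hU1 hA hB hc hpos hcx S, fun p hp => W_mersenne hp (lucas_mersenne p), law_lucas⟩
  rw [hA, hB, hc, one_pow]
  ring

end Pool.Agent.Results.MP_9b2bac_nt.PairCurves
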